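import Pool.Agent.X150.QE.Final

/-! Three positive solutions of `-Δu = λ c u + μ |∇u|² + h` for some `λ < γ₁` under (H1).

The domain is a planar annulus, the coefficients and the solutions are radial. In the variable
`s = log |z| ∈ (0, S)` the equation reads `-w'' = λ C w + μ w'² + H`. The interval is symmetric about
its midpoint; each half consists of a zone where `C = 0`, `H = μ = ln 2`, a zone of length one where
`C > 0`, and a long zone where `C = H = 0`. On the middle zone `C` and `μ` are chosen by Cramer's rule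
so that two given quadratic functions `U + 1/2`, `V + 1/2` and the constant `1/2` solve the equation
with `λ = 1`; these extend to the whole interval, and `U`, `V` match at the midpoint after
reflection. This gives a symmetric solution `u₁` and two solutions `u₂`, `u₃` that are mirror images
of each other. A concave function `Ψ ≤ 1` with `-Ψ'' = 2/5 ≥ (8/5) C Ψ` where `C ≠ 0` shows
`γ₁ ≥ 8/5 > 1`. For `λ = 0` the solution `u₀` is found from a Riccati equation. -/

set_option autoImplicit false

open Set MeasureTheory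

namespace Pool.Agent.Results.MP_6d3bed_an.Main

open Pool.Agent.X150.QE

theorem result : ∃ R : ℝ, 1 < R ∧ ∃ c μ h : ℂ → ℝ,
    HypH1 (ann R) c μ h ∧ BelowFirst (ann R) c 1 ∧
    ∃ u₁ u₂ u₃ : ℂ → ℝ, IsSol (ann R) 1 c μ h u₁ ∧ IsSol (ann R) 1 c μ h u₂ ∧
      IsSol (ann R) 1 c μ h u₃ ∧ (∀ z ∈ ann R, 0 < u₁ z ∧ 0 < u₂ z ∧ 0 < u₃ z) ∧
      ¬ u₁ =ᵐ[volume.restrict (ann R)] u₂ ∧ ¬ u₁ =ᵐ[volume.restrict (ann R)] u₃ ∧
      ¬ u₂ =ᵐ[volume.restrict (ann R)] u₃ :=
  main

end Pool.Agent.Results.MP_6d3bed_an.Main
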